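import Mathlib

namespace Pool.Agent.Results.MP_21cc58_al.Pattern

def Adj (G : Type) [Group G] (p q : ℕ) : Prop :=
  p.Prime ∧ q.Prime ∧ p ≠ q ∧ ∃ g : G, orderOf g = p * q

noncomputable def deg (G : Type) [Group G] (p : ℕ) : ℕ := {q | Adj G p q}.ncard

@[ext] structure T (u : ZMod 91) where
  a : ZMod 91
  i : ZMod 6
  deriving DecidableEq

def eqv (u : ZMod 91) : T u ≃ ZMod 91 × ZMod 6 :=
  ⟨fun x => (x.a, x.i), fun x => ⟨x.1, x.2⟩, fun _ => rfl, fun _ => rfl⟩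

instance (u : ZMod 91) : Fintype (T u) := Fintype.ofEquiv _ (eqv u).symm

instance (u : ZMod 91) : Mul (T u) := ⟨fun x y => ⟨x.a + u ^ x.i.val * y.a, x.i + y.i⟩⟩
instance (u : ZMod 91) : One (T u) := ⟨⟨0, 0⟩⟩
instance (u : ZMod 91) : Inv (T u) := ⟨fun x => ⟨-(u ^ (-x.i).val * x.a), -x.i⟩⟩

theorem mul_a {u : ZMod 91} (x y : T u) : (x * y).a = x.a + u ^ x.i.val * y.a := rfl
theorem mul_i {u : ZMod 91} (x y : T u) : (x * y).i = x.i + y.i := rfl

theorem pw {u : ZMod 91} (h : u ^ 6 = 1) (i j : ZMod 6) :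
    u ^ (i + j).val = u ^ i.val * u ^ j.val := by
  rw [ZMod.val_add, ← pow_add, ← pow_eq_pow_mod _ h]

instance grp (u : ZMod 91) [h : Fact (u ^ 6 = 1)] : Group (T u) :=
  Group.ofLeftAxioms
    (fun x y z => by
      ext
      · simp only [mul_a, mul_i, pw h.out]; ring
      · simp only [mul_i]; ring)
    (fun x => by
      ext
      · show (0 : ZMod 91) + u ^ (0 : ZMod 6).val * x.a = x.a
        simp
      · show (0 : ZMod 6) + x.i = x.i
        simp)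
    (fun x => by
      ext
      · show -(u ^ (-x.i).val * x.a) + u ^ (-x.i).val * x.a = 0
        ring
      · show -x.i + x.i = 0
        ring)

instance : Fact ((51 : ZMod 91) ^ 6 = 1) := ⟨by decide +kernel⟩
instance : Fact ((55 : ZMod 91) ^ 6 = 1) := ⟨by decide +kernel⟩

theorem two {p q r s : ℕ} (hp : p.Prime) (hq : q.Prime) (hr : r.Prime) (hs : s.Prime)
    (hne : p ≠ q) (h : p * q ∣ r * s) : (p = r ∧ q = s) ∨ (p = s ∧ q = r) := by
  have h1 := (Nat.Prime.dvd_mul hp).1 (dvd_trans (dvd_mul_right p q) h)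
  have h2 := (Nat.Prime.dvd_mul hq).1 (dvd_trans (dvd_mul_left q p) h)
  rw [Nat.prime_dvd_prime_iff_eq hp hr, Nat.prime_dvd_prime_iff_eq hp hs] at h1
  rw [Nat.prime_dvd_prime_iff_eq hq hr, Nat.prime_dvd_prime_iff_eq hq hs] at h2
  omega

theorem ord {G : Type} [Group G] (g : G) {p q : ℕ} (hp : p.Prime) (hq : q.Prime)
    (h : g ^ (p * q) = 1) (h1 : g ^ p ≠ 1) (h2 : g ^ q ≠ 1) : orderOf g = p * q := by
  apply orderOf_eq_of_pow_and_pow_div_prime (Nat.mul_pos hp.pos hq.pos) h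
  intro r hr hd
  rcases (Nat.Prime.dvd_mul hr).1 hd with h3 | h3
  · rw [Nat.prime_dvd_prime_iff_eq hr hp] at h3
    subst h3
    rwa [Nat.mul_div_cancel_left _ hp.pos]
  · rw [Nat.prime_dvd_prime_iff_eq hr hq] at h3
    subst h3
    rwa [Nat.mul_div_cancel _ hq.pos]

theorem adj_iff {G : Type} [Group G] {s t : ℕ} (hs : s.Prime) (ht : t.Prime)
    (h2 : 2 ≠ s) (h3 : 3 ≠ t)
    (hall : ∀ g : G, g ^ (2 * 3) = 1 ∨ g ^ (2 * s) = 1 ∨ g ^ (3 * t) = 1 ∨ g ^ (7 * 13) = 1)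
    (e1 : ∃ g : G, orderOf g = 2 * 3) (e2 : ∃ g : G, orderOf g = 2 * s)
    (e3 : ∃ g : G, orderOf g = 3 * t) (e4 : ∃ g : G, orderOf g = 7 * 13) (p q : ℕ) :
    Adj G p q ↔ ((p = 2 ∧ q = 3) ∨ (p = 3 ∧ q = 2)) ∨ ((p = 2 ∧ q = s) ∨ (p = s ∧ q = 2)) ∨
      ((p = 3 ∧ q = t) ∨ (p = t ∧ q = 3)) ∨ ((p = 7 ∧ q = 13) ∨ (p = 13 ∧ q = 7)) := by
  have p2 := Nat.prime_two
  have p3 := Nat.prime_three
  have p7 : Nat.Prime 7 := by norm_num
  have p13 : Nat.Prime 13 := by norm_num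
  constructor
  · rintro ⟨hp, hq, hne, g, hg⟩
    rcases hall g with h | h | h | h <;> rw [← orderOf_dvd_iff_pow_eq_one, hg] at h
    · exact Or.inl (two hp hq p2 p3 hne h)
    · exact Or.inr (Or.inl (two hp hq p2 hs hne h))
    · exact Or.inr (Or.inr (Or.inl (two hp hq p3 ht hne h)))
    · exact Or.inr (Or.inr (Or.inr (two hp hq p7 p13 hne h)))
  · rintro ((⟨rfl, rfl⟩ | ⟨rfl, rfl⟩) | (⟨rfl, rfl⟩ | ⟨rfl, rfl⟩) | (⟨rfl, rfl⟩ | ⟨rfl, rfl⟩) |
      (⟨rfl, rfl⟩ | ⟨rfl, rfl⟩))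
    · exact ⟨p2, p3, by norm_num, e1⟩
    · exact ⟨p3, p2, by norm_num, e1⟩
    · exact ⟨p2, hs, h2, e2⟩
    · exact ⟨hs, p2, h2.symm, by rwa [mul_comm]⟩
    · exact ⟨p3, ht, h3, e3⟩
    · exact ⟨ht, p3, h3.symm, by rwa [mul_comm]⟩
    · exact ⟨p7, p13, by norm_num, e4⟩
    · exact ⟨p13, p7, by norm_num, e4⟩

theorem pow_eq {u : ZMod 91} [Fact (u ^ 6 = 1)] (g : T u) (n : ℕ) :
    g ^ n = ⟨(∑ k ∈ Finset.range n, (u ^ g.i.val) ^ k) * g.a, (n : ZMod 6) * g.i⟩ := by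
  induction n with
  | zero =>
    rw [pow_zero]
    ext
    · show (0 : ZMod 91) = _
      simp
    · show (0 : ZMod 6) = _
      simp
  | succ n ih =>
    rw [pow_succ', ih]
    ext
    · simp only [mul_a, geom_sum_succ]; ring
    · simp only [mul_i]; push_cast; ring

theorem pow_one_iff {u : ZMod 91} [Fact (u ^ 6 = 1)] (g : T u) (n : ℕ) :
    g ^ n = 1 ↔ (∑ k ∈ Finset.range n, (u ^ g.i.val) ^ k) * g.a = 0 ∧ (n : ZMod 6) * g.i = 0 := by
  rw [pow_eq, T.ext_iff]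
  rfl

def Z (u : ZMod 91) (i : ZMod 6) (n : ℕ) : Prop :=
  ∑ k ∈ Finset.range n, (u ^ i.val) ^ k = 0 ∧ (n : ZMod 6) * i = 0

instance (u : ZMod 91) (i : ZMod 6) (n : ℕ) : Decidable (Z u i n) := by
  unfold Z; infer_instance

theorem ofZ {u : ZMod 91} [Fact (u ^ 6 = 1)] (g : T u) {n : ℕ} (h : Z u g.i n) : g ^ n = 1 := by
  rw [pow_one_iff, h.1, zero_mul]
  exact ⟨rfl, h.2⟩

theorem allA : ∀ i : ZMod 6, Z 51 i (2 * 3) ∨ Z 51 i (2 * 7) ∨ Z 51 i (3 * 13) ∨ Z 51 i (7 * 13) := by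
  decide +kernel

theorem allB : ∀ i : ZMod 6, Z 55 i (2 * 3) ∨ Z 55 i (2 * 13) ∨ Z 55 i (3 * 7) ∨ Z 55 i (7 * 13) := by
  decide +kernel

theorem ord' {u : ZMod 91} [Fact (u ^ 6 = 1)] (i : ZMod 6) {p q : ℕ} (hp : p.Prime) (hq : q.Prime)
    (h : Z u i (p * q))
    (h1 : ¬ (∑ k ∈ Finset.range p, (u ^ i.val) ^ k = 0 ∧ (p : ZMod 6) * i = 0))
    (h2 : ¬ (∑ k ∈ Finset.range q, (u ^ i.val) ^ k = 0 ∧ (q : ZMod 6) * i = 0)) :
    ∃ g : T u, orderOf g = p * q := by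
  refine ⟨⟨1, i⟩, ord _ hp hq (ofZ _ h) ?_ ?_⟩
  · rw [Ne, pow_one_iff, mul_one]; exact h1
  · rw [Ne, pow_one_iff, mul_one]; exact h2

theorem adjA (p q : ℕ) : Adj (T 51) p q ↔
    ((p = 2 ∧ q = 3) ∨ (p = 3 ∧ q = 2)) ∨ ((p = 2 ∧ q = 7) ∨ (p = 7 ∧ q = 2)) ∨
      ((p = 3 ∧ q = 13) ∨ (p = 13 ∧ q = 3)) ∨ ((p = 7 ∧ q = 13) ∨ (p = 13 ∧ q = 7)) :=
  adj_iff (by norm_num) (by norm_num) (by norm_num) (by norm_num)
    (fun g => (allA g.i).imp (ofZ g) (Or.imp (ofZ g) (Or.imp (ofZ g) (ofZ g))))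
    (ord' 1 (by norm_num) (by norm_num) (by decide +kernel) (by decide +kernel) (by decide +kernel))
    (ord' 3 (by norm_num) (by norm_num) (by decide +kernel) (by decide +kernel) (by decide +kernel))
    (ord' 2 (by norm_num) (by norm_num) (by decide +kernel) (by decide +kernel) (by decide +kernel))
    (ord' 0 (by norm_num) (by norm_num) (by decide +kernel) (by decide +kernel) (by decide +kernel))
    p q

theorem adjB (p q : ℕ) : Adj (T 55) p q ↔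
    ((p = 2 ∧ q = 3) ∨ (p = 3 ∧ q = 2)) ∨ ((p = 2 ∧ q = 13) ∨ (p = 13 ∧ q = 2)) ∨
      ((p = 3 ∧ q = 7) ∨ (p = 7 ∧ q = 3)) ∨ ((p = 7 ∧ q = 13) ∨ (p = 13 ∧ q = 7)) :=
  adj_iff (by norm_num) (by norm_num) (by norm_num) (by norm_num)
    (fun g => (allB g.i).imp (ofZ g) (Or.imp (ofZ g) (Or.imp (ofZ g) (ofZ g))))
    (ord' 1 (by norm_num) (by norm_num) (by decide +kernel) (by decide +kernel) (by decide +kernel))
    (ord' 3 (by norm_num) (by norm_num) (by decide +kernel) (by decide +kernel) (by decide +kernel))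
    (ord' 2 (by norm_num) (by norm_num) (by decide +kernel) (by decide +kernel) (by decide +kernel))
    (ord' 0 (by norm_num) (by norm_num) (by decide +kernel) (by decide +kernel) (by decide +kernel))
    p q

theorem dg {G : Type} [Group G] {p a b : ℕ} (hab : a ≠ b)
    (h : ∀ q, Adj G p q ↔ q = a ∨ q = b) : deg G p = 2 := by
  have : {q | Adj G p q} = {a, b} := by
    ext q
    simp [h]
  rw [deg, this, Set.ncard_pair hab]

theorem cardT (u : ZMod 91) : Nat.card (T u) = 546 := by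
  rw [Nat.card_congr (eqv u), Nat.card_prod, Nat.card_zmod, Nat.card_zmod]

theorem result :
    ¬ ∀ (G M : Type) [Group G] [Group M] [Finite G] [Finite M], Nat.card G = Nat.card M →
      (∀ p ∈ (Nat.card G).primeFactors, deg G p = deg M p) →
      ∀ p q : ℕ, Adj G p q ↔ Adj M p q := by
  intro h
  have h1 := h (T 51) (T 55) (by rw [cardT, cardT]) (by
    intro p hp
    rw [cardT] at hp
    have h546 : (546 : ℕ).primeFactors = {2, 3, 7, 13} := by decide +kernel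
    rw [h546] at hp
    simp only [Finset.mem_insert, Finset.mem_singleton] at hp
    rcases hp with rfl | rfl | rfl | rfl
    · rw [dg (a := 3) (b := 7) (by norm_num) (fun q => by rw [adjA]; omega),
        dg (a := 3) (b := 13) (by norm_num) (fun q => by rw [adjB]; omega)]
    · rw [dg (a := 2) (b := 13) (by norm_num) (fun q => by rw [adjA]; omega),
        dg (a := 2) (b := 7) (by norm_num) (fun q => by rw [adjB]; omega)]
    · rw [dg (a := 2) (b := 13) (by norm_num) (fun q => by rw [adjA]; omega),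
        dg (a := 3) (b := 13) (by norm_num) (fun q => by rw [adjB]; omega)]
    · rw [dg (a := 3) (b := 7) (by norm_num) (fun q => by rw [adjA]; omega),
        dg (a := 2) (b := 7) (by norm_num) (fun q => by rw [adjB]; omega)]) 2 7
  rw [adjA, adjB] at h1
  omega

end Pool.Agent.Results.MP_21cc58_al.Pattern
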